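import Pool.Agent.Q264.Uni12

/-!
# The level set of the smallest univoque base at the Komornik-Loreti constant

`U x` is the set of the bases `q` in `(1, 2]` in which `x` has exactly one expansion with digits
`0`, `1`. The set `U 1` has a least element `qKL`, the Komornik-Loreti constant. The level set
`L qKL` of the points `x > 0` whose smallest univoque base is `qKL` has a two-sided accumulation
point, and it is uncountable.
-/

set_option autoImplicit false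

namespace Pool.Agent.Results.MP_6b9f1a_nt.UncountableLevelSet

/-- `c` is a `q`-expansion of `x` with digits `0` (`false`) and `1` (`true`); the digit `d_(i+1)` of
the problem is `c i` -/
def IsExp (q x : ℝ) (c : ℕ → Bool) : Prop :=
  x = ∑' i : ℕ, (if c i then (1 : ℝ) else 0) / q ^ (i + 1)

/-- the univoque bases of `x` -/
def U (x : ℝ) : Set ℝ := {q | 1 < q ∧ q ≤ 2 ∧ ∃! c : ℕ → Bool, IsExp q x c}

/-- the level set at height `q`: the points `x > 0` for which `q` is the minimum of `U x` -/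
def L (q : ℝ) : Set ℝ := {x | 0 < x ∧ IsLeast (U x) q}

/-- `x` is a two-sided accumulation point of `A` -/
def TwoSided (A : Set ℝ) (x : ℝ) : Prop :=
  ∀ ε : ℝ, 0 < ε → (Set.Ioo (x - ε) x ∩ A).Nonempty ∧ (Set.Ioo x (x + ε) ∩ A).Nonempty

lemma isExp_iff {q x : ℝ} {c : ℕ → Bool} : IsExp q x c ↔ Q264.Uni.ev q c = x := by
  unfold IsExp Q264.Uni.ev Q264.Uni.bt
  have : ∀ i : ℕ, (if c i then (1 : ℝ) else 0) / q ^ (i + 1) =
      (if c i then (1 : ℝ) else 0) * (q⁻¹) ^ (i + 1) := by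
    intro i; rw [inv_pow, div_eq_mul_inv]
  simp only [this]
  exact eq_comm

lemma U_eq (x : ℝ) : U x = Q264.Uni.UU x := by
  ext q
  rw [Q264.Uni.UU_iff]
  unfold U
  simp only [Set.mem_ofPred_eq, isExp_iff]

lemma L_eq (q : ℝ) : L q = Q264.Uni.Lv q := by
  unfold L Q264.Uni.Lv
  simp only [U_eq]

theorem result :
    ∃ qKL : ℝ, IsLeast (U 1) qKL ∧
      (∃ x ∈ L qKL, TwoSided (L qKL) x) ∧
      ¬ (L qKL).Countable ∧
      -- the same with the infimum in place of the minimum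
      (∃ x ∈ L qKL, TwoSided {x | 0 < x ∧ sInf (U x) = qKL} x) ∧
      ¬ {x : ℝ | 0 < x ∧ sInf (U x) = qKL}.Countable := by
  obtain ⟨Q, hQ⟩ := Q264.Uni.KL_exists
  obtain ⟨s, hs, hsU⟩ := Q264.Uni.exists_UU_one
  have hQs : Q < 1.85 := lt_of_le_of_lt (hQ.2 hsU) hs
  have hQ1 : 1 < Q := hQ.1.1
  have hQ2 : Q < 2 := by norm_num at hQs; linarith
  obtain ⟨a, m, D⟩ := Q264.Uni.dat_of_iso le_rfl hQ1 hQ2 hQ.1
    (fun t _ ht htU => absurd (hQ.2 htU) (not_le.2 ht))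
  have hy1 : Q * (Q - 1) < 1.6 := by
    norm_num at hQs ⊢
    nlinarith
  have hy0 : 0 < Q * (Q - 1) := mul_pos (by linarith) (by linarith)
  have hp := Q264.Uni.pre1 D (by
    generalize Q * (Q - 1) = y at hy1 hy0
    norm_num at hy1
    nlinarith)
  obtain ⟨S, hS, hunc, hleft, x, hx, hright⟩ := Q264.Uni.cantor_summary D hp
  have hsub : L Q ⊆ {x | 0 < x ∧ sInf (U x) = Q} := fun y hy => ⟨hy.1, hy.2.csInf_eq⟩
  have htwo : TwoSided (L Q) x := by
    intro ε hε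
    obtain ⟨y, h1, h2, h3⟩ := hleft x hx ε hε
    obtain ⟨z, h4, h5, h6⟩ := hright ε hε
    rw [L_eq]
    exact ⟨⟨y, ⟨h2, h3⟩, h1⟩, ⟨z, ⟨h5, h6⟩, h4⟩⟩
  have hxL : x ∈ L Q := by rw [L_eq]; exact hS hx
  have hnc : ¬ (L Q).Countable := fun h => hunc (h.mono (by rw [L_eq]; exact hS))
  refine ⟨Q, by rw [U_eq]; exact hQ, ⟨x, hxL, htwo⟩, hnc, ⟨x, hxL, fun ε hε => ?_⟩,
    fun h => hnc (h.mono hsub)⟩
  obtain ⟨⟨y, h1, h2⟩, ⟨z, h3, h4⟩⟩ := htwo ε hε
  exact ⟨⟨y, h1, hsub h2⟩, ⟨z, h3, hsub h4⟩⟩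

end Pool.Agent.Results.MP_6b9f1a_nt.UncountableLevelSet
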